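import Mathlib
import Pool.Agent.Lib.MP_23fb81_pr.Defs
import Pool.Agent.Lib.MP_23fb81_pr.Final

namespace Pool.Agent.Results.MP_23fb81_pr.Characterisation

open Pool.Agent.Lib.MP_23fb81_pr
open scoped ComplexConjugate

/-- **Functions of two variables acting on characteristic functions.**
A function `F` on the closed bidisc is admissible (that is, `ξ ↦ F (φ₁ ξ, φ₂ ξ)` is a
characteristic function for all characteristic functions `φ₁, φ₂`) if and only if
`F (x, y) = ∑ a_{jklm} x^j x̄^k y^l ȳ^m` on the closed bidisc, with coefficients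
`a_{jklm} ≥ 0` of sum `1`. No regularity of `F` is assumed. -/
theorem result (F : Disc × Disc → ℂ) :
    Admissible F ↔ ∃ a : ℕ × ℕ × ℕ × ℕ → ℝ, (∀ n, 0 ≤ a n) ∧ HasSum a 1 ∧
      ∀ x y : Disc, HasSum (fun n : ℕ × ℕ × ℕ × ℕ => (a n : ℂ) * (x : ℂ) ^ n.1 *
        conj (x : ℂ) ^ n.2.1 * (y : ℂ) ^ n.2.2.1 * conj (y : ℂ) ^ n.2.2.2) (F (x, y)) :=
  characterisation F

end Pool.Agent.Results.MP_23fb81_pr.Characterisation
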